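import Pool.Agent.Helper34_UR.PTB1

namespace Pool.Agent.Helper21_UR.H34

open Complex MeasureTheory Pool.Agent.Helper21_UR

/-- first remainder -/
noncomputable def e1f (q z : ℂ) : ℂ := pt q z - 1 / (1 + q * z)

noncomputable def r1f (q z : ℂ) : ℂ :=
  -((1 - q) * q ^ 2 * z ^ 2 / ((1 + q * z) * (1 + q ^ 2 * z)))

theorem e1_fe {q z : ℂ} (hq : ‖q‖ < 1) (h1 : 1 + q * z ≠ 0) (h2 : 1 + q ^ 2 * z ≠ 0) :
    e1f q z = -(q * z) * e1f q (q * z) + r1f q z := by
  have h2' : 1 + q * (q * z) ≠ 0 := by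
    convert h2 using 2; ring
  unfold e1f r1f
  rw [pt_fe hq z]
  have e1 : q * (q * z) = q ^ 2 * z := by ring
  rw [e1]
  field_simp
  ring

theorem e1_small {q w : ℂ} (hq : ‖q‖ < 1) (hw : ‖w‖ ≤ 1 / 2) : ‖e1f q w‖ ≤ 4 := by
  have l1 : 1 / 2 ≤ ‖1 + q * w‖ := by
    have h1 : ‖q * w‖ ≤ 1 / 2 := by
      rw [norm_mul]
      calc ‖q‖ * ‖w‖ ≤ 1 * ‖w‖ := by gcongr
        _ ≤ 1 / 2 := by linarith
    have h2 : ‖(1 : ℂ)‖ ≤ ‖1 + q * w‖ + ‖q * w‖ := by
      calc ‖(1 : ℂ)‖ = ‖(1 + q * w) - q * w‖ := by congr 1; ring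
        _ ≤ _ := norm_sub_le _ _
    rw [norm_one] at h2
    linarith
  have p1 : ‖pt q w‖ ≤ 2 := by
    refine (ptb3 q w hq (by linarith)).trans ?_
    rw [div_le_iff₀ (by linarith)]
    linarith
  have p2 : ‖1 / (1 + q * w)‖ ≤ 2 := by
    rw [norm_div, norm_one, div_le_iff₀ (by linarith)]
    linarith
  unfold e1f
  refine (norm_sub_le _ _).trans ?_
  linarith

theorem ptb2 : Ptb2Statement := by
  intro t0 v z h0 h1 hv hz9 hz harg
  obtain ⟨q, hq⟩ : ∃ q, q = cexp (-tt t0 (t0 * v)) := ⟨_, rfl⟩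
  rw [← hq]
  have hqn := norm_q hq
  have hq1 : ‖q‖ < 1 := by rw [hqn]; exact Real.exp_lt_one_iff.2 (by linarith)
  have hv' := abs_le.1 hv
  have ha' := abs_le.1 harg
  have hang : ∀ j : ℕ, |arg z - j * (t0 * v)| ≤ 11 / 10 + 3 / 5 * (j * t0) := by
    intro j
    have hj : (0 : ℝ) ≤ j * t0 := by positivity
    rw [abs_le]
    constructor <;> nlinarith [mul_le_mul_of_nonneg_left hv'.1 hj, mul_le_mul_of_nonneg_left hv'.2 hj]
  have hxle : ∀ j : ℕ, ‖q ^ j * z‖ ≤ 1 := by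
    intro j
    rw [norm_mul, norm_pow]
    calc ‖q‖ ^ j * ‖z‖ ≤ 1 * 1 := by
          gcongr; exact pow_le_one₀ (norm_nonneg _) hq1.le
      _ = 1 := one_mul 1
  have hmono : ∀ k j : ℕ, ‖q ^ (j + k) * z‖ ≤ ‖q ^ j * z‖ := by
    intro k j
    have : q ^ (j + k) * z = q ^ k * (q ^ j * z) := by ring
    rw [this, norm_mul (q ^ k), norm_pow]
    exact mul_le_of_le_one_left (norm_nonneg _) (pow_le_one₀ (norm_nonneg _) hq1.le)
  have low1 : ∀ j : ℕ, (j : ℝ) * t0 ≤ 3 / 4 → 1 ≤ ‖1 + q ^ j * z‖ := by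
    intro j hj
    have hc : 0 ≤ Real.cos (arg z - j * (t0 * v)) := by
      apply Real.cos_nonneg_of_mem_Icc
      have := abs_le.1 (hang j)
      have hpi := Real.pi_gt_d2
      constructor <;> linarith
    have h2 : 0 * ‖q ^ j * z‖ ≤ (q ^ j * z).re := by
      rw [re_qz hq, zero_mul]; positivity
    have := le_norm_one_add h2
    linarith
  have low2 : ∀ j : ℕ, 3 / 4 ≤ ((j : ℝ) + 2) * t0 → ‖q ^ j * z‖ ≤ 1 / 2 := by
    intro j hj
    rw [norm_qz hq]
    have h3 : Real.exp (-(j * t0)) ≤ Real.exp (-(7 / 10)) := Real.exp_le_exp.2 (by linarith)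
    have h4 : Real.exp (-(7 / 10)) ≤ 1 / 2 := by
      rw [Real.exp_neg, inv_le_comm₀ (Real.exp_pos _) (by norm_num)]
      have h5 := Real.sum_le_exp_of_nonneg (show (0 : ℝ) ≤ 7 / 10 by norm_num) 5
      norm_num [Finset.sum_range_succ, Nat.factorial] at h5
      linarith
    calc Real.exp (-(j * t0)) * ‖z‖ ≤ 1 / 2 * 1 := by
          gcongr; linarith
      _ = _ := by norm_num
  have lowS : ∀ w : ℂ, 1 - ‖w‖ ≤ ‖1 + w‖ := by
    intro w
    have h3 : ‖(1 : ℂ)‖ ≤ ‖1 + w‖ + ‖w‖ := by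
      calc ‖(1 : ℂ)‖ = ‖(1 + w) - w‖ := by congr 1; ring
        _ ≤ _ := norm_sub_le _ _
    rw [norm_one] at h3
    linarith
  have hne : ∀ j : ℕ, 1 + q ^ j * z ≠ 0 := fun j h => by
    by_cases hj : ((j : ℝ) + 2) * t0 ≤ 3 / 4
    · have := low1 j (by nlinarith)
      rw [h, norm_zero] at this
      linarith
    · push Not at hj
      have h2 := low2 j hj.le
      have h3 := lowS (q ^ j * z)
      rw [h, norm_zero] at h3
      linarith
  have hfe : ∀ i : ℕ, e1f q (q ^ i * z) = -(q * (q ^ i * z)) * e1f q (q * (q ^ i * z)) +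
      r1f q (q ^ i * z) := by
    intro i
    refine e1_fe hq1 ?_ ?_
    · convert hne (i + 1) using 2; ring
    · convert hne (i + 2) using 2; ring
  have hsub : ‖1 - q‖ ≤ 12 / 10 * t0 := by
    have h2 := norm_one_sub_q (v := v) (V := 1.17) h0 h1 (by nlinarith) (by norm_num)
      (by norm_num) hq
    nlinarith
  have hr : ∀ i : ℕ, ‖r1f q (q ^ i * z)‖ ≤ 12 / 10 * t0 := by
    intro i
    set x := ‖q ^ i * z‖ with hx
    have hx0 : 0 ≤ x := norm_nonneg _
    have hx1 : x ≤ 1 := hxle i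
    have e1 : 1 + q * (q ^ i * z) = 1 + q ^ (i + 1) * z := by ring
    have e2' : 1 + q ^ 2 * (q ^ i * z) = 1 + q ^ (i + 2) * z := by ring
    unfold r1f
    rw [norm_neg, norm_div, e1, e2']
    have hdpos : 0 < ‖(1 + q ^ (i + 1) * z) * (1 + q ^ (i + 2) * z)‖ := by
      rw [norm_pos_iff]
      exact mul_ne_zero (hne _) (hne _)
    rw [div_le_iff₀ hdpos, norm_mul (1 + q ^ (i + 1) * z), norm_mul, norm_mul, norm_pow,
      norm_pow (q ^ i * z), ← hx]
    have hden : x ^ 2 ≤ ‖1 + q ^ (i + 1) * z‖ * ‖1 + q ^ (i + 2) * z‖ := by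
      by_cases hi : ((i : ℝ) + 2) * t0 ≤ 3 / 4
      · have k1 := low1 (i + 1) (by push_cast; nlinarith)
        have k2 := low1 (i + 2) (by push_cast; nlinarith)
        nlinarith
      · push Not at hi
        have h2 := low2 i hi.le
        have k1 := lowS (q ^ (i + 1) * z)
        have k2 := lowS (q ^ (i + 2) * z)
        have m1 := hmono 1 i
        have m2 := hmono 2 i
        rw [← hx] at h2 m1 m2
        have k3 : x ≤ ‖1 + q ^ (i + 1) * z‖ := by linarith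
        have k4 : x ≤ ‖1 + q ^ (i + 2) * z‖ := by linarith
        rw [sq]
        exact mul_le_mul k3 k4 hx0 (by positivity)
    calc ‖1 - q‖ * ‖q‖ ^ 2 * x ^ 2 ≤ (12 / 10 * t0) * 1 * x ^ 2 := by
          gcongr; exact pow_le_one₀ (norm_nonneg _) hq1.le
      _ = 12 / 10 * t0 * x ^ 2 := by ring
      _ ≤ _ := mul_le_mul_of_nonneg_left hden (by positivity)
  have hE : ‖e1f q z‖ ≤ (12 / 10) * 0.198 :=
    iter_bound h0 h1 hqn hz (e1f q) (r1f q) hfe hr (fun w hw => e1_small hq1 hw)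
  have hmain : ‖1 / (1 + q * z)‖ ≤ 3 / 4 := by
    have hc : 0 ≤ Real.cos (arg z - (1 : ℕ) * (t0 * v)) := by
      apply Real.cos_nonneg_of_mem_Icc
      have := abs_le.1 (hang 1)
      have hpi := Real.pi_gt_three
      push_cast at this ⊢
      constructor <;> linarith
    have h6 : 0 ≤ (q ^ 1 * z).re := by
      rw [re_qz hq]
      positivity
    rw [pow_one] at h6
    have h7 : 882 / 1000 ≤ ‖q * z‖ := by
      rw [norm_mul, hqn]
      have h8 := Real.add_one_le_exp (-t0)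
      nlinarith
    have h9 : (4 / 3 : ℝ) ≤ ‖1 + q * z‖ := by
      rw [← abs_norm, ← abs_of_nonneg (show (0 : ℝ) ≤ 4 / 3 by norm_num)]
      apply sq_le_sq.1
      have h10 : ‖q * z‖ ^ 2 = (q * z).re ^ 2 + (q * z).im ^ 2 := by
        rw [Complex.sq_norm, Complex.normSq_apply]; ring
      rw [Complex.sq_norm, Complex.normSq_apply, Complex.add_re, Complex.add_im, Complex.one_re,
        Complex.one_im]
      nlinarith
    rw [norm_div, norm_one, div_le_iff₀ (by linarith)]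
    linarith
  have key : pt q z = e1f q z + 1 / (1 + q * z) := by
    unfold e1f; ring
  rw [key]
  refine (norm_add_le _ _).trans ?_
  norm_num at hE hmain ⊢
  linarith

end Pool.Agent.Helper21_UR.H34
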