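import Pool.Agent.Helper21_UR.Stmts

namespace Pool.Agent.Helper21_UR.H34

open Complex MeasureTheory Pool.Agent.Helper21_UR

/-- bound of the terms of the partial theta function -/
theorem pt_term_le {q z : ℂ} (hq : ‖q‖ ≤ 1) (j : ℕ) :
    ‖(-1 : ℂ) ^ j * z ^ j * q ^ (j * (j + 1) / 2)‖ ≤ ‖z‖ ^ j := by
  rw [norm_mul, norm_mul, norm_pow, norm_pow, norm_pow, norm_neg, norm_one, one_pow, one_mul]
  exact mul_le_of_le_one_right (by positivity) (pow_le_one₀ (norm_nonneg _) hq)

theorem ptb3 : Ptb3Statement := by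
  intro q z hq hz
  unfold pt
  refine tsum_of_norm_bounded (g := fun j => ‖z‖ ^ j) ?_ (fun j => pt_term_le hq.le j)
  rw [one_div]
  exact hasSum_geometric_of_lt_one (norm_nonneg _) hz

/-- the terms of the partial theta function are summable -/
theorem pt_summable {q z : ℂ} (hq : ‖q‖ < 1) :
    Summable (fun j : ℕ => (-1 : ℂ) ^ j * z ^ j * q ^ (j * (j + 1) / 2)) := by
  -- ratio test
  refine summable_of_ratio_norm_eventually_le (r := 1 / 2) (by norm_num) ?_
  have h1 : Filter.Tendsto (fun n : ℕ => ‖z‖ * ‖q‖ ^ (n + 1)) Filter.atTop (nhds 0) := by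
    have h := (tendsto_pow_atTop_nhds_zero_of_lt_one (norm_nonneg q) hq).comp
      (Filter.tendsto_add_atTop_nat 1)
    simpa using h.const_mul ‖z‖
  filter_upwards [h1.eventually (gt_mem_nhds (show (0 : ℝ) < 1 / 2 by norm_num))] with n hn
  have e : (n + 1) * (n + 1 + 1) / 2 = n * (n + 1) / 2 + (n + 1) := by
    have : (n + 1) * (n + 1 + 1) = n * (n + 1) + (n + 1) * 2 := by ring
    rw [this, Nat.add_mul_div_right _ _ (by norm_num)]
  rw [e]
  have : ‖(-1 : ℂ) ^ (n + 1) * z ^ (n + 1) * q ^ (n * (n + 1) / 2 + (n + 1))‖ =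
      (‖z‖ * ‖q‖ ^ (n + 1)) * ‖(-1 : ℂ) ^ n * z ^ n * q ^ (n * (n + 1) / 2)‖ := by
    simp only [norm_mul, norm_pow, norm_neg, norm_one, one_pow, one_mul, pow_add, pow_one]
    ring
  rw [this]
  exact mul_le_mul_of_nonneg_right hn.le (norm_nonneg _)

/-- the functional equation -/
theorem pt_fe {q : ℂ} (hq : ‖q‖ < 1) (z : ℂ) : pt q z = 1 - q * z * pt q (q * z) := by
  have hs := pt_summable (z := z) hq
  unfold pt
  rw [hs.tsum_eq_zero_add, ← tsum_mul_left]
  simp only [pow_zero, Nat.zero_div, zero_mul, mul_one]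
  rw [sub_eq_add_neg, ← tsum_neg]
  congr 1
  refine tsum_congr fun n => ?_
  have e : (n + 1) * (n + 1 + 1) / 2 = n * (n + 1) / 2 + (n + 1) := by
    have : (n + 1) * (n + 1 + 1) = n * (n + 1) + (n + 1) * 2 := by ring
    rw [this, Nat.add_mul_div_right _ _ (by norm_num)]
  rw [e]
  ring

end Pool.Agent.Helper21_UR.H34
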