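import Pool.Agent.Helper34_UR.PTB1

namespace Pool.Agent.Helper21_UR.H34

open Complex MeasureTheory Pool.Agent.Helper21_UR

theorem sinh_lin {z : ℂ} (hz : ‖z‖ ≤ 7 / 100) : ‖sinh z - z‖ ≤ 0.1704 * ‖z‖ ^ 3 := by
  have h1 : ‖z‖ ≤ 1 := by linarith
  have a1 := Complex.exp_bound h1 (n := 4) (by norm_num)
  have h2 : ‖-z‖ ≤ 1 := by rwa [norm_neg]
  have a2 := Complex.exp_bound h2 (n := 4) (by norm_num)
  have e : sinh z - z = z ^ 3 / 6 +
      ((cexp z - ∑ m ∈ Finset.range 4, z ^ m / (m.factorial : ℂ)) -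
        (cexp (-z) - ∑ m ∈ Finset.range 4, (-z) ^ m / (m.factorial : ℂ))) / 2 := by
    rw [Complex.sinh]
    simp only [Finset.sum_range_succ, Finset.sum_range_zero, Nat.factorial]
    push_cast
    ring
  rw [norm_neg] at a2
  norm_num [Nat.factorial] at a1 a2
  rw [e]
  have h3 : ‖((cexp z - ∑ m ∈ Finset.range 4, z ^ m / (m.factorial : ℂ)) -
        (cexp (-z) - ∑ m ∈ Finset.range 4, (-z) ^ m / (m.factorial : ℂ))) / 2‖ ≤
        ‖z‖ ^ 4 * (5 / 96) := by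
    rw [norm_div]
    have := norm_sub_le (cexp z - ∑ m ∈ Finset.range 4, z ^ m / (m.factorial : ℂ))
      (cexp (-z) - ∑ m ∈ Finset.range 4, (-z) ^ m / (m.factorial : ℂ))
    rw [Complex.norm_ofNat, div_le_iff₀ (by norm_num)]
    norm_num [Nat.factorial] at *
    linarith
  have h4 : ‖z ^ 3 / 6‖ = ‖z‖ ^ 3 / 6 := by
    rw [norm_div, norm_pow, Complex.norm_ofNat]
  refine (norm_add_le _ _).trans ?_
  rw [h4]
  have h5 : ‖z‖ ^ 4 ≤ 7 / 100 * ‖z‖ ^ 3 := by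
    have : 0 ≤ ‖z‖ ^ 3 := by positivity
    nlinarith
  have h6 : 0 ≤ ‖z‖ ^ 3 := by positivity
  linarith

theorem sinh_rel {z : ℂ} (hz : ‖z‖ ≤ 7 / 100) : ∃ b : ℂ, sinh z = z * (1 + b) ∧
    ‖b‖ ≤ 0.1704 * ‖z‖ ^ 2 := by
  by_cases h0 : z = 0
  · exact ⟨0, by simp [h0], by simp [h0]⟩
  · refine ⟨(sinh z - z) / z, ?_, ?_⟩
    · field_simp; ring
    · have hp : 0 < ‖z‖ := norm_pos_iff.2 h0
      rw [norm_div, div_le_iff₀ hp]
      refine (sinh_lin hz).trans (le_of_eq ?_)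
      ring

theorem sin_rel {w : ℂ} (hw : ‖w‖ ≤ 14 / 100) : ∃ b : ℂ, sin (w / 2) = w / 2 * (1 + b) ∧
    ‖b‖ ≤ ‖w‖ ^ 2 / 20 := by
  have h1 : ‖w / 2 * I‖ = ‖w‖ / 2 := by
    rw [norm_mul, norm_I, norm_div, Complex.norm_ofNat, mul_one]
  obtain ⟨b, hb, hb2⟩ := sinh_rel (z := w / 2 * I) (by rw [h1]; linarith)
  refine ⟨b, ?_, ?_⟩
  · rw [Complex.sinh_mul_I] at hb
    have : sin (w / 2) * I = (w / 2 * (1 + b)) * I := by rw [hb]; ring
    exact mul_right_cancel₀ I_ne_zero this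
  · rw [h1] at hb2
    refine hb2.trans ?_
    nlinarith [sq_nonneg ‖w‖]

theorem sinh_sq_rel {y : ℂ} (hy : ‖y‖ ≤ 14 / 100) : ∃ b : ℂ,
    4 * sinh (y / 2) ^ 2 = y ^ 2 * (1 + b) ∧ ‖b‖ ≤ ‖y‖ ^ 2 / 10 := by
  have h1 : ‖y / 2‖ = ‖y‖ / 2 := by rw [norm_div, Complex.norm_ofNat]
  obtain ⟨b, hb, hb2⟩ := sinh_rel (z := y / 2) (by rw [h1]; linarith)
  refine ⟨2 * b + b ^ 2, ?_, ?_⟩
  · rw [hb]; ring
  · rw [h1] at hb2
    have h3 : ‖b‖ ≤ 0.0426 * ‖y‖ ^ 2 := by linarith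
    have h4 : ‖y‖ ^ 2 ≤ 0.0196 := by
      have := norm_nonneg y
      nlinarith
    have h5 : ‖2 * b + b ^ 2‖ ≤ 2 * ‖b‖ + ‖b‖ ^ 2 := by
      refine (norm_add_le _ _).trans ?_
      rw [norm_mul, norm_pow, Complex.norm_ofNat]
    refine h5.trans ?_
    have := norm_nonneg b
    nlinarith [sq_nonneg ‖y‖]

theorem exp_rel {x : ℂ} (hx : ‖x‖ ≤ 38 / 100) : ‖cexp x - 1‖ ≤ ‖x‖ + 0.585 * ‖x‖ ^ 2 := by
  have a1 := Complex.exp_bound (show ‖x‖ ≤ 1 by linarith) (n := 3) (by norm_num)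
  norm_num [Nat.factorial, Finset.sum_range_succ] at a1
  have h1 : ‖cexp x - 1‖ ≤ ‖cexp x - (1 + x + x ^ 2 / 2)‖ + (‖x‖ + ‖x‖ ^ 2 / 2) := by
    calc ‖cexp x - 1‖ = ‖(cexp x - (1 + x + x ^ 2 / 2)) + (x + x ^ 2 / 2)‖ := by
          congr 1; ring
      _ ≤ ‖cexp x - (1 + x + x ^ 2 / 2)‖ + ‖x + x ^ 2 / 2‖ := norm_add_le _ _
      _ ≤ _ := by
        gcongr
        refine (norm_add_le _ _).trans ?_
        rw [norm_div, norm_pow, Complex.norm_ofNat]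
  have h2 : ‖x‖ ^ 3 ≤ 38 / 100 * ‖x‖ ^ 2 := by
    have : 0 ≤ ‖x‖ ^ 2 := by positivity
    nlinarith
  have h3 : 0 ≤ ‖x‖ ^ 2 := by positivity
  linarith

/-- bound for `2 PT - 1` -/
theorem pt_rel {t0 v : ℝ} {t w : ℂ} {h : ℝ} (h0 : 0 < t0) (h1 : t0 ≤ 1 / 50)
    (hv : |v| ≤ 3 / 10) (ht : t = tt t0 (t0 * v)) (hre : |w.re| ≤ 1 / 8) (him : w.im ≤ 0)
    (hρ : ‖t / 2 + I * w‖ ≤ 14 / 100) (hh : ‖t / 2 + I * w‖ ^ 2 / 2 * 1.002 ≤ h)
    (hh1 : h ≤ 37 / 1000) :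
    ‖2 * PT t w - 1‖ ≤ 0.02056 + 1.05 * h := by
  -- E
  set q := cexp (-t) with hq
  have hq' : q = cexp (-tt t0 (t0 * v)) := by rw [hq, ht]
  set Z := cexp (-(2 * I * w)) with hZ
  have hZre : (-(2 * I * w)).re = 2 * w.im := by simp
  have hZim : (-(2 * I * w)).im = -(2 * w.re) := by simp
  have hZn : ‖Z‖ ≤ 1 := by
    rw [hZ, Complex.norm_exp, hZre, Real.exp_le_one_iff]
    linarith
  have hZa : |arg Z| ≤ 1 / 4 := by
    have hpi := Real.pi_gt_three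
    have h2 := abs_le.1 hre
    have h3 : arg Z = -(2 * w.re) := by
      have h4 := Complex.log_exp (x := -(2 * I * w)) (by rw [hZim]; linarith)
        (by rw [hZim]; linarith)
      rw [← Complex.log_im, hZ, h4, hZim]
    rw [h3, abs_le]
    constructor <;> linarith
  have hE := ptb1 t0 v Z h0 h1 hv hZn hZa q hq'
  -- closed form
  set ρ := t / 2 + I * w with hρdef
  have hcosh : ‖cosh ρ - 1‖ ≤ h := by
    have e : cosh ρ - 1 = 2 * sinh (ρ / 2) ^ 2 := by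
      have h2 := Complex.cosh_two_mul (ρ / 2)
      have h3 := Complex.cosh_sq (ρ / 2)
      rw [show 2 * (ρ / 2) = ρ by ring] at h2
      rw [h2, h3]; ring
    have h5 : ‖ρ / 2‖ = ‖ρ‖ / 2 := by rw [norm_div, Complex.norm_ofNat]
    obtain ⟨b, hb, hb2⟩ := sinh_rel (z := ρ / 2) (by rw [h5]; linarith)
    rw [e, hb]
    have h6 : ‖b‖ ≤ 0.00084 := by
      have := norm_nonneg (ρ / 2)
      rw [h5] at hb2 this
      nlinarith
    have h7 : ‖1 + b‖ ≤ 1.00084 := by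
      refine (norm_add_le _ _).trans ?_
      rw [norm_one]; linarith
    rw [norm_mul, norm_pow, norm_mul, Complex.norm_ofNat, h5]
    have h8 : ‖1 + b‖ ^ 2 ≤ 1.002 := by
      have := norm_nonneg (1 + b)
      nlinarith
    calc 2 * (‖ρ‖ / 2 * ‖1 + b‖) ^ 2 = ‖ρ‖ ^ 2 / 2 * ‖1 + b‖ ^ 2 := by ring
      _ ≤ ‖ρ‖ ^ 2 / 2 * 1.002 := by gcongr
      _ ≤ h := hh
  have hcl : 1 - h ≤ ‖cosh ρ‖ := by
    have h2 : ‖(1 : ℂ)‖ ≤ ‖cosh ρ‖ + ‖cosh ρ - 1‖ := by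
      calc ‖(1 : ℂ)‖ = ‖cosh ρ - (cosh ρ - 1)‖ := by congr 1; ring
        _ ≤ _ := norm_sub_le _ _
    rw [norm_one] at h2
    linarith
  have hcp : 0 < ‖cosh ρ‖ := by linarith
  have hc0 : cosh ρ ≠ 0 := norm_pos_iff.1 hcp
  have hid : 2 * cexp (-(I * w)) * (1 / (1 + q * Z)) = cexp (t / 2) / cosh ρ := by
    have h2 : 1 + q * Z = cexp (-ρ) * (2 * cosh ρ) := by
      rw [Complex.cosh, hq, hZ, ← Complex.exp_add, mul_div_cancel₀ _ (two_ne_zero), mul_add,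
        ← Complex.exp_add, ← Complex.exp_add, hρdef]
      rw [show -(t / 2 + I * w) + (t / 2 + I * w) = 0 by ring, Complex.exp_zero]
      congr 2
      ring
    have h3 : cexp (-(I * w)) = cexp (-ρ) * cexp (t / 2) := by
      rw [← Complex.exp_add, hρdef]
      congr 1
      ring
    rw [h2, h3]
    have := Complex.exp_ne_zero (-ρ)
    field_simp
  have hE' : ‖2 * PT t w - cexp (t / 2) / cosh ρ‖ ≤ 1 / 100 := by
    rw [← hid, PT]
    have e : 2 * (cexp (-(I * w)) * pt (cexp (-t)) (cexp (-(2 * I * w)))) -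
        2 * cexp (-(I * w)) * (1 / (1 + q * Z)) =
        2 * cexp (-(I * w)) * (pt q Z - 1 / (1 + q * Z)) := by
      rw [← hq, ← hZ]; ring
    rw [e, norm_mul, norm_mul, Complex.norm_ofNat]
    have h2 : ‖cexp (-(I * w))‖ ≤ 1 := by
      rw [Complex.norm_exp, Real.exp_le_one_iff]
      simpa using him
    calc 2 * ‖cexp (-(I * w))‖ * ‖pt q Z - 1 / (1 + q * Z)‖ ≤ 2 * 1 * (1 / 200) := by gcongr
      _ = 1 / 100 := by norm_num
  have hexp : ‖cexp (t / 2) - 1‖ ≤ 0.01056 := by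
    have hn : ‖t / 2‖ ≤ 0.01045 := by
      have h2 : ‖t‖ ≤ 0.0209 := by
        rw [← abs_norm, ← abs_of_nonneg (show (0 : ℝ) ≤ 0.0209 by norm_num)]
        apply sq_le_sq.1
        rw [ht, Complex.sq_norm, tt, Complex.normSq_apply]
        simp
        have hv2 : v ^ 2 ≤ 0.09 := by
          rw [← sq_abs]
          have := abs_nonneg v
          nlinarith
        have ht2 : t0 * t0 ≤ 0.0004 := by nlinarith
        have h3 : t0 * v * (t0 * v) = t0 * t0 * v ^ 2 := by ring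
        rw [h3]
        have h4 : t0 * t0 * v ^ 2 ≤ 0.0004 * 0.09 := by gcongr
        norm_num at h4 ⊢
        linarith
      rw [norm_div, Complex.norm_ofNat]
      linarith
    have h3 := exp_rel (x := t / 2) (by linarith)
    have h4 := norm_nonneg (t / 2)
    nlinarith
  have hdiv : ‖cexp (t / 2) / cosh ρ - 1‖ ≤ 0.01056 + 1.05 * h := by
    have e : cexp (t / 2) / cosh ρ - 1 = ((cexp (t / 2) - 1) - (cosh ρ - 1)) / cosh ρ := by
      field_simp; ring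
    rw [e, norm_div, div_le_iff₀ hcp]
    have hh0 : 0 ≤ h := (norm_nonneg _).trans hcosh
    have h2 : ‖(cexp (t / 2) - 1) - (cosh ρ - 1)‖ ≤ 0.01056 + h :=
      (norm_sub_le _ _).trans (add_le_add hexp hcosh)
    refine h2.trans ?_
    calc 0.01056 + h ≤ (0.01056 + 1.05 * h) * (1 - h) := by nlinarith
      _ ≤ _ := mul_le_mul_of_nonneg_left hcl (by positivity)
  calc ‖2 * PT t w - 1‖ = ‖(2 * PT t w - cexp (t / 2) / cosh ρ) + (cexp (t / 2) / cosh ρ - 1)‖ := by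
        congr 1; ring
    _ ≤ _ := norm_add_le _ _
    _ ≤ 1 / 100 + (0.01056 + 1.05 * h) := add_le_add hE' hdiv
    _ ≤ _ := by norm_num; linarith

theorem norm_prod_sub_one (a b c d e : ℂ) {A B C D E : ℝ} (ha : ‖a‖ ≤ A) (hb : ‖b‖ ≤ B)
    (hc : ‖c‖ ≤ C) (hd : ‖d‖ ≤ D) (he : ‖e‖ ≤ E) :
    ‖(1 + a) * (1 + b) * (1 + c) * (1 + d) * (1 + e) - 1‖ ≤
      (1 + A) * (1 + B) * (1 + C) * (1 + D) * (1 + E) - 1 := by
  have key : ∀ x y : ℂ, ∀ X Y : ℝ, ‖x - 1‖ ≤ X - 1 → ‖y‖ ≤ Y → ‖x * (1 + y) - 1‖ ≤ X * (1 + Y) - 1 := by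
    intro x y X Y hx hy
    have hX : ‖x‖ ≤ X := by
      calc ‖x‖ = ‖(x - 1) + 1‖ := by congr 1; ring
        _ ≤ ‖x - 1‖ + ‖(1 : ℂ)‖ := norm_add_le _ _
        _ ≤ X := by rw [norm_one]; linarith
    calc ‖x * (1 + y) - 1‖ = ‖(x - 1) + x * y‖ := by congr 1; ring
      _ ≤ ‖x - 1‖ + ‖x * y‖ := norm_add_le _ _
      _ ≤ (X - 1) + X * Y := by
        rw [norm_mul]
        have h2 : 0 ≤ X := (norm_nonneg _).trans hX
        gcongr
      _ = _ := by ring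
  have h1 : ‖(1 + a) - 1‖ ≤ (1 + A) - 1 := by simpa using ha
  exact key _ _ _ _ (key _ _ _ _ (key _ _ _ _ (key _ _ _ _ h1 hb) hc) hd) he

theorem xb_num {N : ℝ} (hN0 : 0 ≤ N) (hN1 : N ≤ 27.25) :
    (1 + (0.02056 + 1.05 * (0.001 * N))) * (1 + 0.0000278 * N) * (1 + 0.0000556 * N) *
      (1 + (0.0139 * N + 0.000114 * N ^ 2)) * (1 + 1 / 1000) - 1 ≤ 1 / 40 + N / 50 := by
  have g1 : (1 + 0.0000278 * N) * (1 + 0.0000556 * N) * (1 + 1 / 1000) ≤ 1.001 + 0.0001 * N := by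
    nlinarith
  have g2 : (1 + (0.02056 + 1.05 * (0.001 * N))) * (1.001 + 0.0001 * N) ≤
      1.0216 + 0.00118 * N := by nlinarith
  have g3 : (1.0216 + 0.00118 * N) * (1 + (0.0139 * N + 0.000114 * N ^ 2)) ≤
      1.025 + N / 50 := by
    have k1 : N ^ 2 ≤ 27.25 * N := by nlinarith
    have k2 : N ^ 3 ≤ 742.6 * N := by nlinarith
    nlinarith
  have g4 : 0 ≤ 1 + (0.0139 * N + 0.000114 * N ^ 2) := by positivity
  have g5 : 0 ≤ 1 + (0.02056 + 1.05 * (0.001 * N)) := by positivity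
  calc _ = (1 + (0.02056 + 1.05 * (0.001 * N))) * ((1 + 0.0000278 * N) * (1 + 0.0000556 * N) *
        (1 + 1 / 1000)) * (1 + (0.0139 * N + 0.000114 * N ^ 2)) - 1 := by ring
    _ ≤ (1 + (0.02056 + 1.05 * (0.001 * N))) * (1.001 + 0.0001 * N) *
        (1 + (0.0139 * N + 0.000114 * N ^ 2)) - 1 := by gcongr
    _ ≤ (1.0216 + 0.00118 * N) * (1 + (0.0139 * N + 0.000114 * N ^ 2)) - 1 := by gcongr
    _ ≤ _ := by linarith

theorem xb : XbStatement := by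
  intro t0 v s κ ch ε t w y h0 h1 hv hs hκ hch1 hch2 hε ht hw hy
  have hκ1 : 1 / 2 ≤ κ := by rcases hκ with h | h <;> rw [h] <;> norm_num
  have hκ2 : κ ≤ 3 / 2 := by rcases hκ with h | h <;> rw [h] <;> norm_num
  have hv' := abs_le.1 hv
  have hs' := abs_le.1 hs
  have hv2 : v ^ 2 ≤ 9 / 100 := by
    rw [← sq_abs]
    have := abs_nonneg v
    nlinarith
  have hs2 : s ^ 2 ≤ 25 := by
    rw [← sq_abs]
    have := abs_nonneg s
    nlinarith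
  have hsv : |s * v| ≤ 3 / 10 * |s| := by
    rw [abs_mul]
    nlinarith [abs_nonneg s]
  have hsv' := abs_le.1 hsv
  have has : 2 * κ * |s| ≤ s ^ 2 + κ ^ 2 := by
    rw [← sq_abs s]
    nlinarith [sq_nonneg (|s| - κ)]
  -- N
  set N : ℝ := ‖sg κ s‖ ^ 2 with hN
  have hNe : N = s ^ 2 + κ ^ 2 := by
    rw [hN, Complex.sq_norm, sg, Complex.normSq_apply]
    simp
    ring
  have hN0 : 0 ≤ N := by positivity
  have hN1 : N ≤ 27.25 := by rw [hNe]; nlinarith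
  -- t0 bounds
  have ht2 : t0 ^ 2 ≤ 0.0004 := by nlinarith
  -- norms
  have hwre : w.re = t0 * (s + κ * v) := by rw [hw, sg]; simp
  have hwim : w.im = -(t0 * κ) := by rw [hw, sg]; simp
  have hyre : y.re = t0 * (ch + κ) := by rw [hy, bt]; simp
  have hyim : y.im = t0 * (s + κ * v) := by rw [hy, bt]; simp
  have hWN : (s + κ * v) ^ 2 + κ ^ 2 ≤ 1.39 * N := by
    rw [hNe]
    have h3 : 2 * κ * (s * v) ≤ 3 / 10 * (s ^ 2 + κ ^ 2) := by nlinarith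
    have h4 : κ ^ 2 * v ^ 2 ≤ κ ^ 2 * (9 / 100) := by gcongr
    nlinarith
  have hwn : ‖w‖ ^ 2 ≤ t0 ^ 2 * (1.39 * N) := by
    rw [Complex.sq_norm, Complex.normSq_apply, hwre, hwim]
    calc _ = t0 ^ 2 * ((s + κ * v) ^ 2 + κ ^ 2) := by ring
      _ ≤ _ := by gcongr
  have hyn : ‖y‖ ^ 2 ≤ t0 ^ 2 * (1.39 * N) := by
    rw [Complex.sq_norm, Complex.normSq_apply, hyre, hyim]
    have h5 : (ch + κ) ^ 2 ≤ κ ^ 2 := by nlinarith
    calc _ = t0 ^ 2 * ((s + κ * v) ^ 2 + (ch + κ) ^ 2) := by ring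
      _ ≤ t0 ^ 2 * ((s + κ * v) ^ 2 + κ ^ 2) := by gcongr
      _ ≤ _ := by gcongr
  have hbig : t0 ^ 2 * (1.39 * N) ≤ 0.0004 * (1.39 * N) := by gcongr
  have hwn1 : ‖w‖ ≤ 14 / 100 := by
    rw [← abs_norm, ← abs_of_nonneg (show (0 : ℝ) ≤ 14 / 100 by norm_num)]
    apply sq_le_sq.1
    nlinarith
  have hyn1 : ‖y‖ ≤ 14 / 100 := by
    rw [← abs_norm, ← abs_of_nonneg (show (0 : ℝ) ≤ 14 / 100 by norm_num)]
    apply sq_le_sq.1
    nlinarith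
  have hw0 : 0 < ‖w‖ := by
    rw [norm_pos_iff]
    intro h
    rw [h, Complex.zero_im] at hwim
    have : 0 < t0 * κ := by positivity
    linarith
  obtain ⟨b, hb, hb2⟩ := sin_rel hwn1
  obtain ⟨c, hc, hc2⟩ := sinh_sq_rel hyn1
  -- rho
  have hρe : ‖t / 2 + I * w‖ ^ 2 = t0 ^ 2 * ((1 / 2 + κ) ^ 2 + (s + (κ + 1 / 2) * v) ^ 2) := by
    rw [Complex.sq_norm, Complex.normSq_apply]
    have e1 : (t / 2 + I * w).re = t0 * (1 / 2 + κ) := by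
      rw [ht, tt, Complex.add_re, Complex.mul_re, hwim, hwre]
      simp
      ring
    have e2 : (t / 2 + I * w).im = t0 * (s + (κ + 1 / 2) * v) := by
      rw [ht, tt, Complex.add_im, Complex.mul_im, hwim, hwre]
      simp
      ring
    rw [e1, e2]; ring
  have hρ1 : ‖t / 2 + I * w‖ ≤ 14 / 100 := by
    rw [← abs_norm, ← abs_of_nonneg (show (0 : ℝ) ≤ 14 / 100 by norm_num)]
    apply sq_le_sq.1
    rw [hρe]
    have h5 : |s + (κ + 1 / 2) * v| ≤ 5.6 := by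
      rw [abs_le]
      constructor <;> nlinarith
    have h6 : (s + (κ + 1 / 2) * v) ^ 2 ≤ 5.6 ^ 2 := by
      rw [← sq_abs]; gcongr
    have h7 : (1 / 2 + κ) ^ 2 ≤ 4 := by nlinarith
    calc t0 ^ 2 * ((1 / 2 + κ) ^ 2 + (s + (κ + 1 / 2) * v) ^ 2) ≤ 0.0004 * (4 + 5.6 ^ 2) := by
          gcongr
      _ ≤ (14 / 100) ^ 2 := by norm_num
  have hρ2 : ‖t / 2 + I * w‖ ^ 2 / 2 * 1.002 ≤ 0.001 * N := by
    rw [hρe]
    have h5 : (1 / 2 + κ) ^ 2 ≤ 4 * κ ^ 2 := by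
      have h5' : 1 / 2 + κ ≤ 2 * κ := by linarith
      calc (1 / 2 + κ) ^ 2 ≤ (2 * κ) ^ 2 := by gcongr
        _ = _ := by ring
    have h6 : (s + (κ + 1 / 2) * v) ^ 2 ≤ s ^ 2 + 0.6 * (s ^ 2 + κ ^ 2) + 0.36 * κ ^ 2 := by
      have h7 : (κ + 1 / 2) ^ 2 ≤ 4 * κ ^ 2 := by
        have h7' : κ + 1 / 2 ≤ 2 * κ := by linarith
        calc (κ + 1 / 2) ^ 2 ≤ (2 * κ) ^ 2 := by gcongr
          _ = _ := by ring
      have h8 : 2 * (κ + 1 / 2) * (s * v) ≤ 0.6 * (s ^ 2 + κ ^ 2) := by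
        have h9 : 2 * (κ + 1 / 2) * (s * v) ≤ 2 * (κ + 1 / 2) * (3 / 10 * |s|) :=
          mul_le_mul_of_nonneg_left hsv'.2 (by positivity)
        have h10 : (κ + 1 / 2) * |s| ≤ 2 * κ * |s| := by
          have := abs_nonneg s
          gcongr; linarith
        norm_num at h9 ⊢
        linarith
      have h11 : (κ + 1 / 2) ^ 2 * v ^ 2 ≤ 4 * κ ^ 2 * (9 / 100) := by gcongr
      calc (s + (κ + 1 / 2) * v) ^ 2 = s ^ 2 + 2 * (κ + 1 / 2) * (s * v) +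
            (κ + 1 / 2) ^ 2 * v ^ 2 := by ring
        _ ≤ _ := by norm_num at h8 h11 ⊢; linarith
    have h12 : (1 / 2 + κ) ^ 2 + (s + (κ + 1 / 2) * v) ^ 2 ≤ 4.96 * N := by
      rw [hNe]
      have := sq_nonneg s
      norm_num at h5 h6 ⊢
      linarith
    calc t0 ^ 2 * ((1 / 2 + κ) ^ 2 + (s + (κ + 1 / 2) * v) ^ 2) / 2 * 1.002
        ≤ 0.0004 * (4.96 * N) / 2 * 1.002 := by gcongr
      _ ≤ 0.001 * N := by nlinarith
  have hwre1 : |w.re| ≤ 1 / 8 := by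
    rw [hwre, abs_mul, abs_of_pos h0]
    have h5 : |s + κ * v| ≤ 5.45 := by
      rw [abs_le]
      constructor <;> nlinarith
    calc t0 * |s + κ * v| ≤ 1 / 50 * 5.45 := by gcongr
      _ ≤ 1 / 8 := by norm_num
  have hA := pt_rel h0 h1 hv ht hwre1 (by rw [hwim]; nlinarith) hρ1 hρ2 (by linarith)
  -- exponential
  have htn : t0 ≤ ‖t‖ := by
    have h5 : t.re = t0 := by rw [ht, tt]; simp
    calc t0 = t.re := h5.symm
      _ ≤ ‖t‖ := Complex.re_le_norm t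
  have hX : ‖w ^ 2 / (2 * t)‖ ≤ 0.0139 * N := by
    rw [norm_div, norm_pow, norm_mul, Complex.norm_ofNat, div_le_iff₀ (by linarith)]
    calc ‖w‖ ^ 2 ≤ t0 ^ 2 * (1.39 * N) := hwn
      _ = t0 * (1.39 * N) * t0 := by ring
      _ ≤ 1 / 50 * (1.39 * N) * ‖t‖ := by gcongr
      _ = 0.0139 * N * (2 * ‖t‖) := by ring
  have hD : ‖cexp (w ^ 2 / (2 * t)) - 1‖ ≤ 0.0139 * N + 0.000114 * N ^ 2 := by
    have h5 := exp_rel (x := w ^ 2 / (2 * t)) (by linarith)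
    have h6 := norm_nonneg (w ^ 2 / (2 * t))
    nlinarith
  have hmain := norm_prod_sub_one (2 * PT t w - 1) b c (cexp (w ^ 2 / (2 * t)) - 1) ε hA
    (hb2.trans (show ‖w‖ ^ 2 / 20 ≤ 0.0000278 * N by nlinarith))
    (hc2.trans (show ‖y‖ ^ 2 / 10 ≤ 0.0000556 * N by nlinarith)) hD hε
  have hnum := xb_num hN0 hN1
  have e : 2 * PT t w * sin (w / 2) * (4 * sinh (y / 2) ^ 2) * cexp (w ^ 2 / (2 * t)) * (1 + ε) -
      w / 2 * y ^ 2 = ((1 + (2 * PT t w - 1)) * (1 + b) * (1 + c) *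
        (1 + (cexp (w ^ 2 / (2 * t)) - 1)) * (1 + ε) - 1) * (w / 2 * y ^ 2) := by
    rw [hb, hc]; ring
  rw [e, norm_mul, norm_mul (w / 2), norm_pow]
  gcongr
  exact hmain.trans hnum

end Pool.Agent.Helper21_UR.H34
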