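import Pool.Agent.Helper34_UR.PTB3

namespace Pool.Agent.Helper21_UR.H34

open Complex MeasureTheory Pool.Agent.Helper21_UR

/-- the Gaussian sum -/
theorem gsum {t0 : ℝ} (h0 : 0 < t0) (h1 : t0 ≤ 1 / 50) (n : ℕ) :
    t0 * ∑ i ∈ Finset.range n, Real.exp (-t0) ^ (i * (i + 1) / 2) ≤ 0.198 := by
  have hterm : ∀ i : ℕ, Real.exp (-t0) ^ (i * (i + 1) / 2) ≤
      Real.exp (-(t0 / 2) * (i : ℝ) ^ 2) := by
    intro i
    rw [← Real.exp_nat_mul]
    apply Real.exp_le_exp.2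
    have e : ((i * (i + 1) / 2 : ℕ) : ℝ) = (i : ℝ) * (i + 1) / 2 := by
      have h2 : i * (i + 1) / 2 * 2 = i * (i + 1) := Nat.div_mul_cancel (Nat.even_mul_succ_self i).two_dvd
      have h3 : ((i * (i + 1) / 2 : ℕ) : ℝ) * 2 = (i : ℝ) * (i + 1) := by
        exact_mod_cast h2
      linarith
    rw [e]
    have hi : (0 : ℝ) ≤ i := Nat.cast_nonneg i
    nlinarith [mul_nonneg h0.le hi]
  have hanti : AntitoneOn (fun x : ℝ => Real.exp (-(t0 / 2) * x ^ 2)) (Set.Ici 0) := by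
    intro x hx y hy hxy
    apply Real.exp_le_exp.2
    have hx' : (0 : ℝ) ≤ x := hx
    have : x ^ 2 ≤ y ^ 2 := by nlinarith
    nlinarith
  have hint : ∀ m : ℕ, ∑ i ∈ Finset.range m, Real.exp (-(t0 / 2) * ((i + 1 : ℕ) : ℝ) ^ 2) ≤
      √(Real.pi / (t0 / 2)) / 2 := by
    intro m
    have h := AntitoneOn.sum_le_integral (f := fun x : ℝ => Real.exp (-(t0 / 2) * x ^ 2))
      (x₀ := 0) (a := m) (hanti.mono (fun x hx => hx.1))
    simp only [zero_add] at h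
    refine h.trans ?_
    rw [← integral_gaussian_Ioi, intervalIntegral.integral_of_le (Nat.cast_nonneg m)]
    refine setIntegral_mono_set ?_ ?_ ?_
    · exact (integrable_exp_neg_mul_sq (half_pos h0)).integrableOn
    · exact Filter.Eventually.of_forall fun x => (Real.exp_pos _).le
    · exact LE.le.eventuallyLE Set.Ioc_subset_Ioi_self
  have hS : ∑ i ∈ Finset.range n, Real.exp (-t0) ^ (i * (i + 1) / 2) ≤
      1 + √(Real.pi / (t0 / 2)) / 2 := by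
    rcases n with _ | m
    · simp; positivity
    · rw [Finset.sum_range_succ']
      have h2 : ∑ k ∈ Finset.range m, Real.exp (-t0) ^ ((k + 1) * (k + 1 + 1) / 2) ≤
          ∑ i ∈ Finset.range m, Real.exp (-(t0 / 2) * ((i + 1 : ℕ) : ℝ) ^ 2) :=
        Finset.sum_le_sum fun i _ => hterm (i + 1)
      have h3 := hint m
      simp only [Nat.zero_add, zero_mul, Nat.zero_div, pow_zero]
      linarith
  have hsq : t0 * (√(Real.pi / (t0 / 2)) / 2) ≤ 0.178 := by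
    have e : t0 * (√(Real.pi / (t0 / 2)) / 2) = √(Real.pi * t0 / 2) := by
      have h3 : √(Real.pi / (t0 / 2)) * √(Real.pi / (t0 / 2)) = Real.pi / (t0 / 2) :=
        Real.mul_self_sqrt (by positivity)
      have h4 : t0 * (√(Real.pi / (t0 / 2)) / 2) * (t0 * (√(Real.pi / (t0 / 2)) / 2)) =
          Real.pi * t0 / 2 := by
        calc t0 * (√(Real.pi / (t0 / 2)) / 2) * (t0 * (√(Real.pi / (t0 / 2)) / 2))
            = t0 ^ 2 / 4 * (√(Real.pi / (t0 / 2)) * √(Real.pi / (t0 / 2))) := by ring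
          _ = _ := by rw [h3]; field_simp; ring
      rw [← h4, Real.sqrt_mul_self (by positivity)]
    rw [e]
    apply Real.sqrt_le_iff.2
    refine ⟨by norm_num, ?_⟩
    have := Real.pi_lt_d4
    nlinarith [Real.pi_pos]
  nlinarith

/-- iteration of a functional equation in norm -/
theorem iter_norm {q z : ℂ} (hz : ‖z‖ ≤ 1) (f g : ℂ → ℂ)
    (hfe : ∀ i : ℕ, f (q ^ i * z) = -(q * (q ^ i * z)) * f (q * (q ^ i * z)) + g (q ^ i * z))
    (n : ℕ) :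
    ‖f z‖ ≤ ∑ i ∈ Finset.range n, ‖q‖ ^ (i * (i + 1) / 2) * ‖g (q ^ i * z)‖ +
      ‖q‖ ^ (n * (n + 1) / 2) * ‖f (q ^ n * z)‖ := by
  induction n with
  | zero => simp
  | succ n ih =>
    refine ih.trans ?_
    rw [Finset.sum_range_succ, add_assoc]
    gcongr
    have h1 : ‖f (q ^ n * z)‖ ≤ ‖q‖ ^ (n + 1) * ‖f (q ^ (n + 1) * z)‖ + ‖g (q ^ n * z)‖ := by
      rw [hfe n]
      refine (norm_add_le _ _).trans ?_
      gcongr
      rw [norm_mul, norm_neg]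
      have e : q * (q ^ n * z) = q ^ (n + 1) * z := by ring
      rw [e, norm_mul, norm_pow]
      have : ‖q‖ ^ (n + 1) * ‖z‖ ≤ ‖q‖ ^ (n + 1) := mul_le_of_le_one_right (by positivity) hz
      exact mul_le_mul_of_nonneg_right this (norm_nonneg _)
    have e : (n + 1) * (n + 1 + 1) / 2 = n * (n + 1) / 2 + (n + 1) := by
      have : (n + 1) * (n + 1 + 1) = n * (n + 1) + (n + 1) * 2 := by ring
      rw [this, Nat.add_mul_div_right _ _ (by norm_num)]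
    rw [e, pow_add]
    calc ‖q‖ ^ (n * (n + 1) / 2) * ‖f (q ^ n * z)‖
        ≤ ‖q‖ ^ (n * (n + 1) / 2) *
          (‖q‖ ^ (n + 1) * ‖f (q ^ (n + 1) * z)‖ + ‖g (q ^ n * z)‖) := by gcongr
      _ = _ := by ring

/-- conclusion of the iteration -/
theorem iter_bound {t0 G F : ℝ} (h0 : 0 < t0) (h1 : t0 ≤ 1 / 50) {q z : ℂ}
    (hq : ‖q‖ = Real.exp (-t0)) (hz : ‖z‖ ≤ 1) (f g : ℂ → ℂ)
    (hfe : ∀ i : ℕ, f (q ^ i * z) = -(q * (q ^ i * z)) * f (q * (q ^ i * z)) + g (q ^ i * z))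
    (hG : ∀ i : ℕ, ‖g (q ^ i * z)‖ ≤ G * t0)
    (hF : ∀ w : ℂ, ‖w‖ ≤ 1 / 2 → ‖f w‖ ≤ F) : ‖f z‖ ≤ G * 0.198 := by
  have hq1 : ‖q‖ < 1 := by rw [hq]; exact Real.exp_lt_one_iff.2 (by linarith)
  have hG0 : 0 ≤ G := by
    have := (norm_nonneg _).trans (hG 0)
    by_contra hneg
    nlinarith
  -- the tail tends to zero
  have hT : Filter.Tendsto (fun n : ℕ => G * 0.198 + ‖q‖ ^ (n * (n + 1) / 2) * F) Filter.atTop
      (nhds (G * 0.198 + 0 * F)) := by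
    refine Filter.Tendsto.add tendsto_const_nhds (Filter.Tendsto.mul_const _ ?_)
    refine (tendsto_pow_atTop_nhds_zero_of_lt_one (norm_nonneg q) hq1).comp ?_
    refine Filter.tendsto_atTop_mono (f := fun n : ℕ => n / 2) ?_ ?_
    · intro n
      refine Nat.div_le_div_right ?_
      nlinarith
    · exact Filter.tendsto_atTop_atTop.2 fun b => ⟨2 * b, fun a ha => by omega⟩
  rw [zero_mul, add_zero] at hT
  refine ge_of_tendsto hT ?_
  have hsmall : ∀ᶠ n : ℕ in Filter.atTop, ‖q‖ ^ n < 1 / 2 :=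
    (tendsto_pow_atTop_nhds_zero_of_lt_one (norm_nonneg q) hq1).eventually
      (gt_mem_nhds (by norm_num))
  filter_upwards [hsmall] with n hn
  refine (iter_norm hz f g hfe n).trans ?_
  have hw : ‖q ^ n * z‖ ≤ 1 / 2 := by
    rw [norm_mul, norm_pow]
    calc ‖q‖ ^ n * ‖z‖ ≤ ‖q‖ ^ n * 1 := by gcongr
      _ ≤ 1 / 2 := by linarith
  have hFn := hF _ hw
  have hs : ∑ i ∈ Finset.range n, ‖q‖ ^ (i * (i + 1) / 2) * ‖g (q ^ i * z)‖ ≤ G * 0.198 := by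
    calc ∑ i ∈ Finset.range n, ‖q‖ ^ (i * (i + 1) / 2) * ‖g (q ^ i * z)‖
        ≤ ∑ i ∈ Finset.range n, ‖q‖ ^ (i * (i + 1) / 2) * (G * t0) := by
          refine Finset.sum_le_sum fun i _ => ?_
          exact mul_le_mul_of_nonneg_left (hG i) (by positivity)
      _ = G * (t0 * ∑ i ∈ Finset.range n, Real.exp (-t0) ^ (i * (i + 1) / 2)) := by
          rw [← Finset.sum_mul, hq]; ring
      _ ≤ G * 0.198 := mul_le_mul_of_nonneg_left (gsum h0 h1 n) hG0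
  have := mul_le_mul_of_nonneg_left hFn (show 0 ≤ ‖q‖ ^ (n * (n + 1) / 2) by positivity)
  linarith

/-- polar form of `q^j z` -/
theorem re_qz {t0 v : ℝ} {q : ℂ} (hq : q = cexp (-tt t0 (t0 * v))) (z : ℂ) (j : ℕ) :
    (q ^ j * z).re = ‖q ^ j * z‖ * Real.cos (arg z - j * (t0 * v)) := by
  have h1 : q ^ j = cexp (-(j * t0 : ℝ)) * cexp ((-(j * (t0 * v)) : ℝ) * I) := by
    rw [hq, ← Complex.exp_nat_mul, ← Complex.exp_add, tt]
    congr 1
    push_cast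
    ring
  have h2 : q ^ j * z = ((Real.exp (-(j * t0)) * ‖z‖ : ℝ) : ℂ) *
      cexp ((arg z - j * (t0 * v) : ℝ) * I) := by
    conv_lhs => rw [h1, ← Complex.norm_mul_exp_arg_mul_I z]
    push_cast
    rw [sub_mul, Complex.exp_sub]
    rw [show (-((j : ℂ) * ((t0 : ℂ) * (v : ℂ))) * I) = -((j : ℂ) * ((t0 : ℂ) * v) * I) by ring,
      Complex.exp_neg ((j : ℂ) * ((t0 : ℂ) * v) * I)]
    field_simp
  have h3 : ‖q ^ j * z‖ = Real.exp (-(j * t0)) * ‖z‖ := by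
    rw [h2, norm_mul, Complex.norm_exp_ofReal_mul_I, mul_one, Complex.norm_real,
      Real.norm_of_nonneg (by positivity)]
  rw [h3]
  conv_lhs => rw [h2, Complex.re_ofReal_mul, Complex.exp_ofReal_mul_I_re]

theorem norm_qz {t0 v : ℝ} {q : ℂ} (hq : q = cexp (-tt t0 (t0 * v))) (z : ℂ) (j : ℕ) :
    ‖q ^ j * z‖ = Real.exp (-(j * t0)) * ‖z‖ := by
  rw [norm_mul, norm_pow, hq, Complex.norm_exp, tt, ← Real.exp_nat_mul]
  congr 2
  simp

theorem norm_q {t0 v : ℝ} {q : ℂ} (hq : q = cexp (-tt t0 (t0 * v))) : ‖q‖ = Real.exp (-t0) := by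
  have := norm_qz hq 1 1
  simpa using this

theorem le_norm_one_add {w : ℂ} {c : ℝ} (h : c * ‖w‖ ≤ w.re) : 1 + c * ‖w‖ ≤ ‖1 + w‖ := by
  refine le_trans ?_ (Complex.re_le_norm _)
  rw [Complex.add_re, Complex.one_re]
  linarith

theorem norm_one_sub_q {t0 v V : ℝ} (h0 : 0 < t0) (h1 : t0 ≤ 1 / 50) (hV : 1 + v ^ 2 ≤ V ^ 2)
    (hV0 : 0 ≤ V) (hV2 : V ≤ 2) {q : ℂ} (hq : q = cexp (-tt t0 (t0 * v))) :
    ‖1 - q‖ ≤ V * t0 * (1 + V / 50) := by
  have hn : ‖tt t0 (t0 * v)‖ ≤ V * t0 := by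
    rw [← abs_norm, ← abs_of_nonneg (show 0 ≤ V * t0 by positivity)]
    apply sq_le_sq.1
    rw [Complex.sq_norm, tt, Complex.normSq_apply]
    simp
    nlinarith [mul_pos h0 h0]
  have hn1 : ‖-tt t0 (t0 * v)‖ ≤ 1 := by
    rw [norm_neg]
    refine hn.trans ?_
    nlinarith
  have h := Complex.norm_exp_sub_one_sub_id_le hn1
  rw [← hq, norm_neg] at h
  calc ‖1 - q‖ = ‖-(q - 1 - -tt t0 (t0 * v)) + tt t0 (t0 * v)‖ := by congr 1; ring
    _ ≤ ‖-(q - 1 - -tt t0 (t0 * v))‖ + ‖tt t0 (t0 * v)‖ := norm_add_le _ _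
    _ ≤ ‖tt t0 (t0 * v)‖ ^ 2 + ‖tt t0 (t0 * v)‖ := by rw [norm_neg]; gcongr
    _ ≤ (V * t0) ^ 2 + V * t0 := by gcongr
    _ ≤ _ := by
      have : V * t0 ≤ V * (1 / 50) := by gcongr
      nlinarith [mul_nonneg hV0 h0.le]

end Pool.Agent.Helper21_UR.H34
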