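import Pool.Agent.Helper34_UR.Base

namespace Pool.Agent.Helper21_UR.H34

open Complex MeasureTheory Pool.Agent.Helper21_UR

/-- second remainder -/
noncomputable def e2 (q z : ℂ) : ℂ :=
  pt q z - 1 / (1 + q * z) + (1 - q) * q ^ 2 * z ^ 2 / ((1 + q * z) ^ 2 * (1 + q ^ 2 * z))

noncomputable def r2 (q z : ℂ) : ℂ :=
  -((1 - q) ^ 2 * q ^ 3 * z ^ 3 * ((1 + q) + q ^ 2 * z - q ^ 4 * z ^ 2) /
    ((1 + q * z) ^ 2 * (1 + q ^ 2 * z) ^ 2 * (1 + q ^ 3 * z)))

theorem e2_fe {q z : ℂ} (hq : ‖q‖ < 1) (h1 : 1 + q * z ≠ 0) (h2 : 1 + q ^ 2 * z ≠ 0)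
    (h3 : 1 + q ^ 3 * z ≠ 0) : e2 q z = -(q * z) * e2 q (q * z) + r2 q z := by
  have h2' : 1 + q * (q * z) ≠ 0 := by
    convert h2 using 2; ring
  have h3' : 1 + q ^ 2 * (q * z) ≠ 0 := by
    convert h3 using 2; ring
  unfold e2 r2
  rw [pt_fe hq z]
  have e1 : q * (q * z) = q ^ 2 * z := by ring
  have e3 : q ^ 2 * (q * z) = q ^ 3 * z := by ring
  rw [e1, e3]
  field_simp
  ring

theorem e2_small {q w : ℂ} (hq : ‖q‖ < 1) (hw : ‖w‖ ≤ 1 / 2) : ‖e2 q w‖ ≤ 20 := by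
  have hlow : ∀ k : ℕ, 1 / 2 ≤ ‖1 + q ^ k * w‖ := by
    intro k
    have h1 : ‖q ^ k * w‖ ≤ 1 / 2 := by
      rw [norm_mul, norm_pow]
      calc ‖q‖ ^ k * ‖w‖ ≤ 1 * ‖w‖ := by
            gcongr; exact pow_le_one₀ (norm_nonneg _) hq.le
        _ ≤ 1 / 2 := by linarith
    have h2 : ‖(1 : ℂ)‖ ≤ ‖1 + q ^ k * w‖ + ‖q ^ k * w‖ := by
      calc ‖(1 : ℂ)‖ = ‖(1 + q ^ k * w) - q ^ k * w‖ := by congr 1; ring
        _ ≤ _ := norm_sub_le _ _
    rw [norm_one] at h2
    linarith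
  have l1 : 1 / 2 ≤ ‖1 + q * w‖ := by simpa using hlow 1
  have l2 := hlow 2
  have p1 : ‖pt q w‖ ≤ 2 := by
    refine (ptb3 q w hq (by linarith)).trans ?_
    rw [div_le_iff₀ (by linarith)]
    linarith
  have p2 : ‖1 / (1 + q * w)‖ ≤ 2 := by
    rw [norm_div, norm_one, div_le_iff₀ (by linarith)]
    linarith
  have p3 : ‖(1 - q) * q ^ 2 * w ^ 2 / ((1 + q * w) ^ 2 * (1 + q ^ 2 * w))‖ ≤ 16 := by
    rw [norm_div, div_le_iff₀ (by rw [norm_mul, norm_pow]; positivity), norm_mul, norm_mul,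
      norm_pow, norm_pow, norm_mul, norm_pow]
    have a1 : ‖1 - q‖ ≤ 2 := by
      refine (norm_sub_le _ _).trans ?_
      rw [norm_one]; linarith
    have a2 : ‖1 - q‖ * ‖q‖ ^ 2 * ‖w‖ ^ 2 ≤ 2 * 1 * 1 := by
      gcongr
      · exact pow_le_one₀ (norm_nonneg _) hq.le
      · exact pow_le_one₀ (norm_nonneg _) (by linarith)
    have a3 : (1 / 2 : ℝ) ^ 2 * (1 / 2) ≤ ‖1 + q * w‖ ^ 2 * ‖1 + q ^ 2 * w‖ := by gcongr
    linarith
  unfold e2
  calc _ ≤ ‖pt q w - 1 / (1 + q * w)‖ + _ := norm_add_le _ _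
    _ ≤ (‖pt q w‖ + ‖1 / (1 + q * w)‖) + _ := by gcongr; exact norm_sub_le _ _
    _ ≤ 20 := by linarith

/-- the angle -/
theorem cos_lower {a c : ℝ} {b : ℝ} (h : |a| ≤ b) (hb : c ≤ 1 - b ^ 2 / 2) : c ≤ Real.cos a := by
  have h1 := Real.one_sub_sq_div_two_le_cos (x := a)
  have h2 : a ^ 2 ≤ b ^ 2 := by
    rw [← sq_abs a]
    gcongr
  linarith

theorem ptb1 : Ptb1Statement := by
  intro t0 v z h0 h1 hv hz harg q hq
  have hqn := norm_q hq
  have hq1 : ‖q‖ < 1 := by rw [hqn]; exact Real.exp_lt_one_iff.2 (by linarith)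
  have hv' := abs_le.1 hv
  have ha' := abs_le.1 harg
  -- the angles
  have hang : ∀ j : ℕ, |arg z - j * (t0 * v)| ≤ 1 / 4 + 3 / 10 * (j * t0) := by
    intro j
    have hj : (0 : ℝ) ≤ j * t0 := by positivity
    rw [abs_le]
    constructor <;> nlinarith [mul_le_mul_of_nonneg_left hv'.1 hj, mul_le_mul_of_nonneg_left hv'.2 hj]
  -- basic lower bounds
  have hexp : ∀ k : ℕ, ∀ j : ℕ, k ≤ 3 → ‖q ^ (j + k) * z‖ ≥ 94 / 100 * ‖q ^ j * z‖ := by
    intro k j hk
    have : q ^ (j + k) * z = q ^ k * (q ^ j * z) := by ring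
    rw [this, norm_mul (q ^ k), norm_pow, hqn, ← Real.exp_nat_mul]
    have h2 : 94 / 100 ≤ Real.exp (k * -t0) := by
      have h3 := Real.add_one_le_exp (k * -t0)
      have hk' : (k : ℝ) ≤ 3 := by exact_mod_cast hk
      nlinarith
    exact mul_le_mul_of_nonneg_right h2 (norm_nonneg _)
  have hxle : ∀ j : ℕ, ‖q ^ j * z‖ ≤ 1 := by
    intro j
    rw [norm_mul, norm_pow]
    calc ‖q‖ ^ j * ‖z‖ ≤ 1 * 1 := by
          gcongr; exact pow_le_one₀ (norm_nonneg _) hq1.le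
      _ = 1 := one_mul 1
  -- case B lower bound
  have lowB : ∀ j : ℕ, 95 / 100 ≤ ‖1 + q ^ j * z‖ := by
    intro j
    by_cases hj : (j : ℝ) * t0 ≤ 3
    · have hc : 0 ≤ Real.cos (arg z - j * (t0 * v)) := by
        apply Real.cos_nonneg_of_mem_Icc
        have := abs_le.1 (hang j)
        have hpi := Real.pi_gt_three
        constructor <;> linarith
      have h2 : 0 * ‖q ^ j * z‖ ≤ (q ^ j * z).re := by
        rw [re_qz hq, zero_mul]; positivity
      have := le_norm_one_add h2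
      linarith
    · push Not at hj
      have h2 : ‖q ^ j * z‖ ≤ 5 / 100 := by
        rw [norm_qz hq]
        have h3 : Real.exp (-(j * t0)) ≤ Real.exp (-3) := Real.exp_le_exp.2 (by linarith)
        have h4 : Real.exp (-3) ≤ 5 / 100 := by
          rw [Real.exp_neg, inv_le_comm₀ (Real.exp_pos _) (by norm_num)]
          have h5 := Real.sum_le_exp_of_nonneg (show (0 : ℝ) ≤ 3 by norm_num) 10
          norm_num [Finset.sum_range_succ, Nat.factorial] at h5
          linarith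
        calc Real.exp (-(j * t0)) * ‖z‖ ≤ 5 / 100 * 1 := by
              gcongr; linarith
          _ = _ := by norm_num
      have h3 : ‖(1 : ℂ)‖ ≤ ‖1 + q ^ j * z‖ + ‖q ^ j * z‖ := by
        calc ‖(1 : ℂ)‖ = ‖(1 + q ^ j * z) - q ^ j * z‖ := by congr 1; ring
          _ ≤ _ := norm_sub_le _ _
      rw [norm_one] at h3
      linarith
  have hne : ∀ j : ℕ, 1 + q ^ j * z ≠ 0 := fun j h => by
    have := lowB j
    rw [h, norm_zero] at this
    linarith
  have hfe : ∀ i : ℕ, e2 q (q ^ i * z) = -(q * (q ^ i * z)) * e2 q (q * (q ^ i * z)) +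
      r2 q (q ^ i * z) := by
    intro i
    refine e2_fe hq1 ?_ ?_ ?_
    · convert hne (i + 1) using 2; ring
    · convert hne (i + 2) using 2; ring
    · convert hne (i + 3) using 2; ring
  -- bound of 1 - q
  have hsub : ‖1 - q‖ ≤ 107 / 100 * t0 := by
    have h2 := norm_one_sub_q (v := v) (V := 1.045) h0 h1 (by nlinarith) (by norm_num)
      (by norm_num) hq
    nlinarith
  have hr : ∀ i : ℕ, ‖r2 q (q ^ i * z)‖ ≤ (107 / 100) ^ 2 / 4 * t0 * t0 := by
    intro i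
    set x := ‖q ^ i * z‖ with hx
    have hx0 : 0 ≤ x := norm_nonneg _
    have hx1 : x ≤ 1 := hxle i
    have e1 : 1 + q * (q ^ i * z) = 1 + q ^ (i + 1) * z := by ring
    have e2' : 1 + q ^ 2 * (q ^ i * z) = 1 + q ^ (i + 2) * z := by ring
    have e3 : 1 + q ^ 3 * (q ^ i * z) = 1 + q ^ (i + 3) * z := by ring
    unfold r2
    rw [norm_neg, norm_div, e1, e2', e3]
    -- numerator
    have hnum : ‖(1 - q) ^ 2 * q ^ 3 * (q ^ i * z) ^ 3 *
        ((1 + q) + q ^ 2 * (q ^ i * z) - q ^ 4 * (q ^ i * z) ^ 2)‖ ≤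
        (107 / 100 * t0) ^ 2 * (x ^ 3 * (2 + x + x ^ 2)) := by
      rw [norm_mul, norm_mul, norm_mul, norm_pow, norm_pow, norm_pow, ← hx]
      have h5 : ‖(1 + q) + q ^ 2 * (q ^ i * z) - q ^ 4 * (q ^ i * z) ^ 2‖ ≤ 2 + x + x ^ 2 := by
        calc _ ≤ ‖(1 + q) + q ^ 2 * (q ^ i * z)‖ + ‖q ^ 4 * (q ^ i * z) ^ 2‖ := norm_sub_le _ _
          _ ≤ (‖1 + q‖ + ‖q ^ 2 * (q ^ i * z)‖) + ‖q ^ 4 * (q ^ i * z) ^ 2‖ := by
            gcongr; exact norm_add_le _ _
          _ ≤ ((‖(1 : ℂ)‖ + ‖q‖) + ‖q ^ 2 * (q ^ i * z)‖) + ‖q ^ 4 * (q ^ i * z) ^ 2‖ := by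
            gcongr; exact norm_add_le _ _
          _ ≤ ((1 + 1) + 1 * x) + 1 * x ^ 2 := by
            rw [norm_one, norm_mul (q ^ 2), norm_mul (q ^ 4), norm_pow, norm_pow, norm_pow, ← hx]
            gcongr
            · exact pow_le_one₀ (norm_nonneg _) hq1.le
            · exact pow_le_one₀ (norm_nonneg _) hq1.le
          _ = _ := by ring
      calc ‖1 - q‖ ^ 2 * ‖q‖ ^ 3 * x ^ 3 *
            ‖(1 + q) + q ^ 2 * (q ^ i * z) - q ^ 4 * (q ^ i * z) ^ 2‖
          ≤ (107 / 100 * t0) ^ 2 * 1 * x ^ 3 * (2 + x + x ^ 2) := by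
            gcongr
            exact pow_le_one₀ (norm_nonneg _) hq1.le
        _ = _ := by ring
    have hden : 4 * (x ^ 3 * (2 + x + x ^ 2)) ≤
        ‖(1 + q ^ (i + 1) * z) ^ 2 * (1 + q ^ (i + 2) * z) ^ 2 * (1 + q ^ (i + 3) * z)‖ := by
      rw [norm_mul, norm_mul, norm_pow, norm_pow]
      by_cases hi : (i : ℝ) * t0 ≤ 9 / 10
      · -- small angles
        have hl : ∀ k : ℕ, k ≤ 3 → 1 + 4 / 5 * x ≤ ‖1 + q ^ (i + k) * z‖ := by
          intro k hk
          have hk' : (k : ℝ) ≤ 3 := by exact_mod_cast hk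
          have hc : 855 / 1000 ≤ Real.cos (arg z - ((i + k : ℕ) : ℝ) * (t0 * v)) := by
            refine cos_lower (b := 538 / 1000) ((hang (i + k)).trans ?_) (by norm_num)
            push_cast
            nlinarith
          have h6 : 855 / 1000 * ‖q ^ (i + k) * z‖ ≤ (q ^ (i + k) * z).re := by
            rw [re_qz hq]
            have := norm_nonneg (q ^ (i + k) * z)
            nlinarith
          have h7 := le_norm_one_add h6
          have h8 := hexp k i hk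
          rw [← hx] at h8
          nlinarith
        have hA : (0 : ℝ) ≤ 1 + 4 / 5 * x := by positivity
        calc 4 * (x ^ 3 * (2 + x + x ^ 2)) ≤ (1 + 4 / 5 * x) ^ 2 * (1 + 4 / 5 * x) ^ 2 *
              (1 + 4 / 5 * x) := by
              have g1 : x ^ 2 ≤ 1 := pow_le_one₀ hx0 hx1
              have g2 : x ^ 3 ≤ x ^ 2 := pow_le_pow_of_le_one hx0 hx1 (by norm_num)
              have g3 : x ^ 3 ≤ x := by
                calc x ^ 3 ≤ x ^ 1 := pow_le_pow_of_le_one hx0 hx1 (by norm_num)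
                  _ = x := pow_one x
              have g4 : x ^ 4 ≤ x ^ 3 := pow_le_pow_of_le_one hx0 hx1 (by norm_num)
              have g5 : x ^ 5 ≤ x ^ 3 := pow_le_pow_of_le_one hx0 hx1 (by norm_num)
              have g6 : 0 ≤ x ^ 4 := by positivity
              have g7 : 0 ≤ x ^ 5 := by positivity
              have g8 : x ^ 3 ≤ 1 := pow_le_one₀ hx0 hx1
              nlinarith
          _ ≤ _ := by
              have k1 := hl 1 (by norm_num)
              have k2 := hl 2 (by norm_num)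
              have k3 := hl 3 (by norm_num)
              gcongr
      · push Not at hi
        have hx2 : x ≤ 41 / 100 := by
          rw [hx, norm_qz hq]
          have h3 : Real.exp (-(i * t0)) ≤ Real.exp (-(9 / 10)) := Real.exp_le_exp.2 (by linarith)
          have h4 : Real.exp (-(9 / 10)) ≤ 41 / 100 := by
            rw [Real.exp_neg, inv_le_comm₀ (Real.exp_pos _) (by norm_num)]
            have h5 := Real.sum_le_exp_of_nonneg (show (0 : ℝ) ≤ 9 / 10 by norm_num) 5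
            norm_num [Finset.sum_range_succ, Nat.factorial] at h5
            linarith
          calc Real.exp (-(i * t0)) * ‖z‖ ≤ 41 / 100 * 1 := by
                gcongr; linarith
            _ = _ := by norm_num
        have k1 := lowB (i + 1)
        have k2 := lowB (i + 2)
        have k3 := lowB (i + 3)
        calc 4 * (x ^ 3 * (2 + x + x ^ 2)) ≤ 4 * ((41 / 100) ^ 3 * (2 + 41 / 100 + (41 / 100) ^ 2)) := by
              gcongr
          _ ≤ (95 / 100) ^ 2 * (95 / 100) ^ 2 * (95 / 100) := by norm_num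
          _ ≤ _ := by gcongr
    have hdpos : 0 < ‖(1 + q ^ (i + 1) * z) ^ 2 * (1 + q ^ (i + 2) * z) ^ 2 *
        (1 + q ^ (i + 3) * z)‖ := by
      rw [norm_pos_iff]
      exact mul_ne_zero (mul_ne_zero (pow_ne_zero _ (hne _)) (pow_ne_zero _ (hne _))) (hne _)
    rw [div_le_iff₀ hdpos]
    refine hnum.trans ?_
    calc (107 / 100 * t0) ^ 2 * (x ^ 3 * (2 + x + x ^ 2))
        = (107 / 100) ^ 2 / 4 * t0 * t0 * (4 * (x ^ 3 * (2 + x + x ^ 2))) := by ring
      _ ≤ _ := by gcongr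
  have hE2 : ‖e2 q z‖ ≤ ((107 / 100) ^ 2 / 4 * t0) * 0.198 :=
    iter_bound h0 h1 hqn hz (e2 q) (r2 q) hfe hr (fun w hw => e2_small hq1 hw)
  -- the first remainder
  have hr1 : ‖(1 - q) * q ^ 2 * z ^ 2 / ((1 + q * z) ^ 2 * (1 + q ^ 2 * z))‖ ≤
      107 / 100 * t0 / 6 := by
    set x := ‖z‖ with hx
    have hx0 : 0 ≤ x := norm_nonneg _
    have hl : ∀ k : ℕ, k ≤ 2 → 1 + 9 / 10 * x ≤ ‖1 + q ^ k * z‖ := by
      intro k hk
      have hk' : (k : ℝ) ≤ 2 := by exact_mod_cast hk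
      have hc : 96 / 100 ≤ Real.cos (arg z - (k : ℝ) * (t0 * v)) := by
        refine cos_lower (b := 262 / 1000) ((hang k).trans ?_) (by norm_num)
        nlinarith
      have h6 : 96 / 100 * ‖q ^ k * z‖ ≤ (q ^ k * z).re := by
        rw [re_qz hq]
        have := norm_nonneg (q ^ k * z)
        nlinarith
      have h7 := le_norm_one_add h6
      have h8 := hexp k 0 (by omega)
      rw [zero_add, pow_zero, one_mul, ← hx] at h8
      nlinarith
    have k1 : 1 + 9 / 10 * x ≤ ‖1 + q * z‖ := by simpa using hl 1 (by norm_num)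
    have k2 := hl 2 le_rfl
    have hdpos : 0 < ‖(1 + q * z) ^ 2 * (1 + q ^ 2 * z)‖ := by
      rw [norm_pos_iff]
      refine mul_ne_zero (pow_ne_zero _ ?_) (hne _)
      simpa using hne 1
    rw [norm_div, div_le_iff₀ hdpos]
    rw [norm_mul, norm_mul, norm_pow, norm_pow, ← hx, norm_mul, norm_pow]
    calc ‖1 - q‖ * ‖q‖ ^ 2 * x ^ 2 ≤ (107 / 100 * t0) * 1 * x ^ 2 := by
          gcongr; exact pow_le_one₀ (norm_nonneg _) hq1.le
      _ = 107 / 100 * t0 / 6 * (6 * x ^ 2) := by ring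
      _ ≤ 107 / 100 * t0 / 6 * ((1 + 9 / 10 * x) ^ 2 * (1 + 9 / 10 * x)) := by
          refine mul_le_mul_of_nonneg_left ?_ (by positivity)
          have g1 : x ^ 2 ≤ 1 := pow_le_one₀ hx0 hz
          have g2 : x ^ 2 ≤ x := by nlinarith
          have g3 : 0 ≤ x ^ 3 := by positivity
          nlinarith
      _ ≤ _ := by gcongr
  have key : pt q z - 1 / (1 + q * z) = e2 q z -
      (1 - q) * q ^ 2 * z ^ 2 / ((1 + q * z) ^ 2 * (1 + q ^ 2 * z)) := by
    unfold e2; ring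
  rw [key]
  refine (norm_sub_le _ _).trans ?_
  nlinarith

end Pool.Agent.Helper21_UR.H34
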